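import Pool.Agent.helper52.IR.Spec

/-!
# MP_07c750, project IR: row BK1 (first backward function)
-/

set_option autoImplicit false

open scoped MatrixGroups ContDiff Topology UpperHalfPlane ComplexConjugate
open UpperHalfPlane MeasureTheory Filter Set

namespace Pool.Agent.IR

open Pool.Agent.RS
open Pool.Agent.MS (bq BB BA SF pf)
open Pool.Agent.HV (FW)
open Pool.Agent.EN (XG MG mkX mkM fl pr)
open Pool.Agent.ER (Low LowJ)

theorem BK1_proof (hBXM : MS.BXM_stmt) (hCOV : COV_stmt) (hCT1 : CT1_stmt) : BK1_stmt := by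
  intro Γ μ a1 hΓ hμ hinv ha1 Λ2 η δ hΛ hη hδ
  obtain ⟨a0, ha0, -, hB⟩ := hBXM Γ hΓ
  obtain ⟨a, had⟩ : ∃ a : ℝ, a = min a0 (1 / 1600) := ⟨_, rfl⟩
  have ha : 0 < a := by rw [had]; exact lt_min ha0 (by norm_num)
  have haa : a ≤ a0 := by rw [had]; exact min_le_left _ _
  have ha2 : a ≤ 1 / 1600 := by rw [had]; exact min_le_right _ _
  obtain ⟨Cb, hCb, hbox⟩ := hB a ha haa
  obtain ⟨n0, hcov⟩ := hCOV Γ μ a1 hΓ hμ hinv ha1 a η δ ha hη hδ
  obtain ⟨C1, hC1, hct⟩ := hCT1 Γ hΓ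
  refine ⟨max 1 (C1 * Λ2), max n0 60, le_max_left _ _, ?_⟩
  intro p εc hp hεc
  have hp1 : n0 ≤ 3 * p := by
    have := (le_max_left n0 60).trans hp
    omega
  have hp2 : (60 : ℝ) ≤ p := by exact_mod_cast (le_max_right n0 60).trans hp
  obtain ⟨A, hAc, hAm⟩ := hcov (3 * p) hp1
  have hcast : ((3 * p : ℕ) : ℝ) = 3 * p := by push_cast; rfl
  rw [hcast] at hAc hAm
  obtain ⟨Ψ, Ψa, Ψn, Ψl, hSF, h01, hn, hl, h1, hne⟩ := hbox (3 * p) A (by positivity)
  refine ⟨Ψ, Ψa, Ψn, Ψl, max Cb (Cb * Real.exp (3 * p)), hSF, h01, fun g => (hn g).trans (le_max_left _ _), fun g => (hl g).trans (le_max_right _ _), ?_, ?_⟩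
  · refine (measureReal_mono ?_ (measure_ne_top _ _)).trans hAm
    rintro x ⟨hxL, hxo⟩
    refine ⟨hxL, fun hxB => hxo ?_⟩
    obtain ⟨y, hy, h, hb, hx⟩ := hxB
    refine ⟨y * h, hx, h1 _ ⟨y, hy, 1, ?_⟩⟩
    have h2 : y⁻¹ * ((1 : Γ) : SL(2, ℝ)) * (y * h) = h := by
      rw [Subgroup.coe_one, mul_one, inv_mul_cancel_left]
    rw [h2]
    exact hb
  · intro l l0 g J hl0 hl1 hl2 hJ
    have hεc1 : εc ≤ 1 / 100 := by
      have e1 : Real.exp (-(3 * p)) ≤ 1 / 181 := by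
        rw [Real.exp_neg, ← one_div]
        apply one_div_le_one_div_of_le (by norm_num)
        have := Real.add_one_le_exp (3 * (p : ℝ))
        linarith
      have e2 : Real.pi / (2 * Λ2) ≤ 1.6 := by
        rw [div_le_iff₀ (by positivity)]
        have := Real.pi_lt_d2
        nlinarith
      have e3 : 0 ≤ Real.pi / (2 * Λ2) := by positivity
      rw [hεc]
      calc Real.pi / (2 * Λ2) * Real.exp (-(3 * p)) ≤ 1.6 * (1 / 181) := mul_le_mul e2 e1 (Real.exp_pos _).le (by norm_num)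
        _ ≤ 1 / 100 := by norm_num
    have h3 := hct (16 * a) Λ2 (3 * p) εc l l0 A g J (by positivity) (by linarith) hΛ (by positivity) hεc hεc1 hl0 hl1 hl2 (by
      intro j hj
      obtain ⟨q1, u, hu, x, τ, o, e, q2, q3, q4, q5, q6⟩ := hJ j hj
      refine ⟨q1, u, hu, x, τ, o, e, q2, q3, q4, q5, ?_⟩
      exact hne _ q6)
    refine h3.trans ?_
    have h4 : C1 * Λ2 * (A.card : ℝ) ≤ C1 * Λ2 * Real.exp ((a1 + η) * (3 * p)) := mul_le_mul_of_nonneg_left hAc (by positivity)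
    exact h4.trans (mul_le_mul_of_nonneg_right (le_max_right _ _) (Real.exp_pos _).le)

end Pool.Agent.IR
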