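import Pool.Agent.helper52.IR.Spec
import Pool.Agent.helper93.ER.EZR

/-!
# MP_07c750, project IR: row COV (the set of small local entropy is covered by few boxes up to small mass; after helper93/ER/EZR.lean)
-/

set_option autoImplicit false

open scoped MatrixGroups ContDiff Topology UpperHalfPlane ComplexConjugate
open UpperHalfPlane MeasureTheory Filter Set

namespace Pool.Agent.IR

open Pool.Agent.RS
open Pool.Agent.MS (bq BB BA SF pf)
open Pool.Agent.HV (FW)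
open Pool.Agent.EN (XG MG mkX mkM fl pr)
open Pool.Agent.ER (Low LowJ)

/-- mass of a set and of its preimage under an invertible transformation -/
theorem COV_mass {X : Type} [MeasurableSpace X] (μ : Measure X) (f f' : X → X) (hf' : MeasurePreserving f' μ μ) (h : ∀ x, f (f' x) = x)
    (E : Set X) : μ E ≤ μ (f ⁻¹' E) := by
  have h1 : E = f' ⁻¹' (f ⁻¹' E) := by
    ext x
    show x ∈ E ↔ f (f' x) ∈ E
    rw [h]
  calc μ E = μ (f' ⁻¹' (f ⁻¹' E)) := congrArg μ h1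
    _ ≤ μ (f ⁻¹' E) := hf'.measure_preimage_le _

theorem COV_proof (hLDE : ER.LDE_stmt) (hFLI : FLI_stmt) (hLOC : LL.LOC_stmt) (hSML : MS.SML_stmt) (hCYB : MS.CYB_stmt) (hPAR : EN.PAR_stmt)
    (hXFL : EN.XFL_stmt) (hXTX : EN.XTX_stmt) (hXNB : EN.XNB_stmt) : COV_stmt := by
  intro Γ μ ρ hΓ hμ hinv hρ a η δ ha hη hδ
  classical
  obtain ⟨hX1, hX2, hX3⟩ := hXTX Γ hΓ
  obtain ⟨δ₁, hδ₁, hcyb⟩ := hCYB Γ a hΓ ha
  obtain ⟨p, P, hP, hcell, -⟩ := hPAR (XG Γ) μ (fun x => EN.Ux Γ δ₁ x) inferInstance (fun x => hXNB Γ δ₁ x hδ₁)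
  have hcy := hcyb p P hP hcell
  have hsys := ER.EZR_sys hXFL Γ μ hinv
  -- parameters
  obtain ⟨κ, hκd⟩ : ∃ κ, κ = η / 8 := ⟨_, rfl⟩
  have hκ : 0 < κ := by rw [hκd]; linarith
  obtain ⟨ε, hε0, hε1, hε2, hε3⟩ : ∃ ε : ℝ, 0 < ε ∧ ε ≤ 1 / 8 ∧ 3 * ε ≤ η / 8 ∧ 3 * ε / κ ≤ δ := by
    refine ⟨min (1 / 8) (min (η / 24) (δ * κ / 6)), ?_, ?_, ?_, ?_⟩
    · exact lt_min (by norm_num) (lt_min (by linarith) (by positivity))
    · exact min_le_left _ _
    · have := (min_le_right (1 / 8) (min (η / 24) (δ * κ / 6))).trans (min_le_left _ _)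
      linarith
    · have := (min_le_right (1 / 8) (min (η / 24) (δ * κ / 6))).trans (min_le_right _ _)
      rw [div_le_iff₀ hκ]
      have h2 : 0 < δ * κ := by positivity
      linarith
  obtain ⟨J, L, hJm, hJT, hJL, hJH, hcyl⟩ := hLOC (XG Γ) μ (fl Γ 1) (fl Γ (-1)) p P ε hμ hsys hP hε0
  have hz := hLDE Γ μ ρ hΓ hμ hinv hρ p P J ε hP hJm hε0 hε1 hcyl
  have hev := hSML (XG Γ) μ (fl Γ 1) (fl Γ (-1)) p P J L ε hμ hsys hP hJm hJL hε0 hJH hcyl κ hκ
  obtain ⟨k0, hk0⟩ := Filter.eventually_atTop.1 hev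
  refine ⟨max (2 * k0) (⌈(1 + 2 * ρ) / η⌉₊ + 1), fun n hn => ?_⟩
  have hn1 : 2 * k0 ≤ n := (le_max_left _ _).trans hn
  have hn2 : ⌈(1 + 2 * ρ) / η⌉₊ + 1 ≤ n := (le_max_right _ _).trans hn
  obtain ⟨k, hk⟩ : ∃ k, k = n / 2 := ⟨_, rfl⟩
  have hk1 : k0 ≤ k := by omega
  have hN1 : n ≤ 2 * k + 1 := by omega
  have hN2 : 2 * k + 1 ≤ n + 1 := by omega
  have hN1' : (n : ℝ) ≤ ((2 * k + 1 : ℕ) : ℝ) := by exact_mod_cast hN1
  have hN2' : ((2 * k + 1 : ℕ) : ℝ) ≤ (n : ℝ) + 1 := by exact_mod_cast hN2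
  have hnδ : (1 + 2 * ρ) / η + 1 ≤ (n : ℝ) := by
    have h1 : (((⌈(1 + 2 * ρ) / η⌉₊ + 1 : ℕ)) : ℝ) ≤ (n : ℝ) := by exact_mod_cast hn2
    have h2 := Nat.le_ceil ((1 + 2 * ρ) / η)
    push_cast at h1
    linarith
  -- the heavy words
  obtain ⟨W, hWc, hWm⟩ := ER.EZR_heavy μ hsys.mp.measurable hP (2 * k + 1) (((2 * k + 1 : ℕ) : ℝ) * (ρ + η / 4))
  choose c hc using fun w : Fin (2 * k + 1) → Fin p => hcy (2 * k + 1) w (by omega)
  refine ⟨W.image c, ?_, ?_⟩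
  · have h1 : ((W.image c).card : ℝ) ≤ (W.card : ℝ) := by exact_mod_cast Finset.card_image_le
    refine h1.trans (hWc.trans (Real.exp_le_exp.2 ?_))
    have h2 : ((2 * k + 1 : ℕ) : ℝ) * (ρ + η / 4) ≤ ((n : ℝ) + 1) * (ρ + η / 4) :=
      mul_le_mul_of_nonneg_right hN2' (by linarith)
    have h3 : 1 + 2 * ρ + η ≤ η * n := by
      have h4 := mul_le_mul_of_nonneg_left hnδ hη.le
      have h5 : η * ((1 + 2 * ρ) / η + 1) = 1 + 2 * ρ + η := by field_simp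
      linarith
    nlinarith
  · have hbad := hk0 k hk1
    have hcov : (⋃ w ∈ W, {x | ∀ i : Fin (2 * k + 1), P ((fl Γ 1)^[i] x) = w i}) ⊆ BX Γ (W.image c) a n := by
      intro x hx
      simp only [Set.mem_iUnion] at hx
      obtain ⟨w, hw, hxw⟩ := hx
      obtain ⟨h, hb, hxh⟩ := hc w hxw
      refine ⟨c w, Finset.mem_image_of_mem _ hw, h, ?_, hxh⟩
      refine ⟨hb.1, hb.2.1, hb.2.2.1, hb.2.2.2.trans ?_⟩
      refine mul_le_mul_of_nonneg_left (Real.exp_le_exp.2 ?_) ha.le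
      linarith
    have hlr : ∀ x, (fl Γ (-1))^[k] ((fl Γ 1)^[k] x) = x := by
      intro x
      have h1 : Function.LeftInverse (fl Γ (-1)) (fl Γ 1) := by
        intro x
        have hF := (hXFL Γ).1
        rw [← hF.add, neg_add_cancel, hF.zero]
      exact h1.iterate k x
    have hrl : ∀ x, (fl Γ 1)^[k] ((fl Γ (-1))^[k] x) = x := by
      intro x
      have h1 : Function.LeftInverse (fl Γ 1) (fl Γ (-1)) := by
        intro x
        have hF := (hXFL Γ).1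
        rw [← hF.add, add_neg_cancel, hF.zero]
      exact h1.iterate k x
    have hlow : ∀ x, (fl Γ (-1))^[k] x ∈ Low Γ μ ρ → x ∈ Low Γ μ ρ := by
      have h1 : ∀ (m : ℕ) (y : XG Γ), y ∈ Low Γ μ ρ → (fl Γ 1)^[m] y ∈ Low Γ μ ρ := by
        intro m
        induction m with
        | zero => exact fun y hy => hy
        | succ m ih =>
          intro y hy
          rw [Function.iterate_succ_apply']
          exact hFLI Γ μ ρ 1 _ hΓ hμ hinv (ih y hy)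
      intro x hx
      have h2 := h1 k _ hx
      rwa [hrl] at h2
    have hsub : (fl Γ (-1))^[k] ⁻¹' (Low Γ μ ρ \ BX Γ (W.image c) a n) ⊆
        ({x | ρ + 3 * ε < J x} ∩ Low Γ μ ρ) ∪
        {x | LL.cyl μ (fl Γ 1) P (2 * k + 1) ((fl Γ (-1))^[k] x) < Real.exp (-(((2 * k + 1 : ℕ) : ℝ) * (J x + κ)))} := by
      rintro x ⟨hxL, hxB⟩
      have hxL' := hlow x hxL
      rcases lt_or_ge (ρ + 3 * ε) (J x) with hx' | hx'
      · exact Or.inl ⟨hx', hxL'⟩
      refine Or.inr ?_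
      by_contra hb
      have hb' : Real.exp (-(((2 * k + 1 : ℕ) : ℝ) * (J x + κ))) ≤ LL.cyl μ (fl Γ 1) P (2 * k + 1) ((fl Γ (-1))^[k] x) := not_lt.1 hb
      have h1 : Real.exp (-(((2 * k + 1 : ℕ) : ℝ) * (ρ + η / 4))) ≤
          LL.cyl μ (fl Γ 1) P (2 * k + 1) ((fl Γ (-1))^[k] x) := by
        refine le_trans (Real.exp_le_exp.2 ?_) hb'
        rw [neg_le_neg_iff]
        refine mul_le_mul_of_nonneg_left ?_ (Nat.cast_nonneg _)
        rw [hκd]
        linarith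
      have h2 := hWm (fun i => P ((fl Γ 1)^[i] ((fl Γ (-1))^[k] x))) h1
      apply hxB
      apply hcov
      simp only [Set.mem_iUnion]
      exact ⟨_, h2, fun i => rfl⟩
    have h1 : μ (Low Γ μ ρ \ BX Γ (W.image c) a n) ≤ ENNReal.ofReal (3 * ε / κ) := by
      refine (COV_mass μ ((fl Γ (-1))^[k]) ((fl Γ 1)^[k]) (hsys.mp.iterate k) hlr _).trans ?_
      refine (measure_mono hsub).trans ((measure_union_le _ _).trans ?_)
      rw [hz, zero_add]
      exact hbad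
    exact (ENNReal.toReal_le_of_le_ofReal (by positivity) h1).trans hε3

end Pool.Agent.IR
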